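import Pool.Agent.KS6_79.FD.F

/-!
MP_db5b97_nt, Q1: an explicit uniform bound for the degree of a field of definition over the field
of moduli, for every `N`, over every base field which embeds in `ℂ`.
-/

set_option autoImplicit false

namespace Pool.Agent.Results.MP_db5b97_nt.EveryBaseFieldExplicit

open Pool.Agent.Helper38.Fom Pool.Agent.KS6_79.FD

/-- `FOM/FOD(N, d)` over the base field `k` with algebraic closure `K`: the supremum over all degree
`d` morphisms `F` of `P^N` over `K` of the infimum of the degrees `[L : K_F]` over all fields of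
definition `L` with `k ⊆ L ⊆ K`, where `K_F` is the field of moduli relative to `k`. -/
noncomputable def fomFodOver (k K : Type) [Field k] [Field K] [Algebra k K] (N d : ℕ) : ℕ∞ :=
  ⨆ (F : Tuple K (N + 1)) (_ : IsMorphism d F),
    ⨅ (L : Subfield K) (_ : (∀ x : k, algebraMap k K x ∈ L) ∧ IsFieldOfDefinition F L),
      Cardinal.toENat (Subfield.relrank (Pool.Agent.KS6_79.FD.fieldOfModuli k F) L)

/-- **Q1 with an explicit bound, uniformly over all base fields.**  Let `N` be a natural number and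
`n = N + 1`, `J = 5 ^ (2 n²)`, `B = n^n (n^n (2^(J J^J))^(2^(J J^J)))`.
(1) `sup_{d ≥ 2} FOM/FOD(N, d) ≤ B`.
(2) The same bound holds with `ℚ` replaced by any field `k` that embeds in `ℂ` and any algebraic
closure `K` of `k`.
(3) More precisely, every morphism `F` of degree `d ≥ 2` of `P^N` over `K` has a field of definition
`L` with `k ⊆ K_F ⊆ L` and `[L : K_F] ≤ B`; and every field of definition containing `k` contains
the field of moduli `K_F`. -/
theorem result (N : ℕ) :
    ((⨆ (d : ℕ) (_ : 2 ≤ d), fomFod N d) ≤ (bnd (N + 1) : ℕ∞)) ∧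
    ∀ (k : Type) [Field k] (_ : k →+* ℂ) (K : Type) [Field K] [Algebra k K] [IsAlgClosed K]
      [Algebra.IsAlgebraic k K],
      ((⨆ (d : ℕ) (_ : 2 ≤ d), fomFodOver k K N d) ≤ (bnd (N + 1) : ℕ∞)) ∧
      ∀ (d : ℕ), 2 ≤ d → ∀ F : Tuple K (N + 1), IsMorphism d F →
        (∀ L : Subfield K, (∀ x : k, algebraMap k K x ∈ L) → IsFieldOfDefinition F L →
          Pool.Agent.KS6_79.FD.fieldOfModuli k F ≤ L) ∧
        ∃ L : Subfield K, (∀ x : k, algebraMap k K x ∈ L) ∧ IsFieldOfDefinition F L ∧
          Pool.Agent.KS6_79.FD.fieldOfModuli k F ≤ L ∧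
          Subfield.relrank (Pool.Agent.KS6_79.FD.fieldOfModuli k F) L ≤
            (bnd (N + 1) : Cardinal) := by
  constructor
  · have halg : Algebra.IsAlgebraic ℚ (AlgebraicClosure ℚ) := AlgebraicClosure.isAlgebraic ℚ
    refine iSup₂_le fun d hd => ?_
    refine iSup₂_le fun F hF => ?_
    have ι : AlgebraicClosure ℚ →+* ℂ :=
      (IsAlgClosed.lift (R := ℚ) (M := ℂ) (S := AlgebraicClosure ℚ)).toRingHom
    obtain ⟨L, -, hL, -, hdeg⟩ :=
      Pool.Agent.KS6_79.FD.uniform_bound ℚ (AlgebraicClosure ℚ) ι hd hF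
    exact iInf₂_le_of_le L hL (Cardinal.toENat_le_natCast.mpr hdeg)
  · intro k _ ι K _ _ _ _
    have hk0 : CharZero k := ι.charZero
    have hK0 : CharZero K := charZero_of_injective_algebraMap (algebraMap k K).injective
    let _ : Algebra k ℂ := ι.toAlgebra
    have ι' : K →+* ℂ := (IsAlgClosed.lift (R := k) (M := ℂ) (S := K)).toRingHom
    have hgal : IsGalois k K :=
      { to_isSeparable := inferInstance
        to_normal := normal_iff.mpr fun x =>
          ⟨Algebra.IsIntegral.isIntegral x, IsAlgClosed.splits _⟩ }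
    refine ⟨?_, fun d hd F hF => ⟨fun L hk hL => fieldOfModuli_le hk hL, ?_⟩⟩
    · refine iSup₂_le fun d hd => ?_
      refine iSup₂_le fun F hF => ?_
      obtain ⟨L, hk, hL, -, hdeg⟩ := Pool.Agent.KS6_79.FD.uniform_bound k K ι' hd hF
      exact iInf₂_le_of_le L ⟨hk, hL⟩ (Cardinal.toENat_le_natCast.mpr hdeg)
    · exact Pool.Agent.KS6_79.FD.uniform_bound k K ι' hd hF

end Pool.Agent.Results.MP_db5b97_nt.EveryBaseFieldExplicit
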